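import Pool.Agent.Helper96.CT.Stmts3

/-! # Row NC: a chain of cliques contains no tree with a centre -/

set_option autoImplicit false

namespace Pool.Agent.Helper18.CT

open SimpleGraph Pool.Agent.Helper96.CT

theorem nc_exit {W : Type} (T : SimpleGraph W) (S : Set W) {w x : W} (p : T.Walk w x)
    (hx : x ∉ S) : ∀ hw : w ∈ S, ∃ (u : W) (hu : u ∈ S) (u' : W), u' ∉ S ∧ T.Adj u u' ∧
      (T.induce S).Reachable ⟨w, hw⟩ ⟨u, hu⟩ := by
  induction p with
  | nil => exact fun hw => absurd hw hx
  | @cons a b c h p ih =>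
    intro hw
    by_cases hb : b ∈ S
    · obtain ⟨u, hu, u', h1, h2, h3⟩ := ih hx hb
      refine ⟨u, hu, u', h1, h2, ?_⟩
      have h4 : (T.induce S).Adj ⟨a, hw⟩ ⟨b, hb⟩ := h
      exact h4.reachable.trans h3
    · exact ⟨a, hw, b, hb, h, Reachable.refl _⟩

theorem nc_side {W : Type} [Fintype W] (T : SimpleGraph W) (a : ℕ) (x : W) (hT : T.Connected)
    (h : ∀ B : Finset W, x ∉ B → (T.induce (B : Set W)).Connected → B.card ≤ a)
    (B : Finset W) (hx : x ∉ B)
    (hu : ∀ u u' v v', u ∈ B → u' ∉ B → T.Adj u u' → v ∈ B → v' ∉ B → T.Adj v v' → u = v) :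
    B.card ≤ a := by
  rcases B.eq_empty_or_nonempty with h0 | ⟨w0, hw0⟩
  · rw [h0]
    simp
  · apply h B hx
    have hx' : x ∉ (B : Set W) := by rwa [Finset.mem_coe]
    obtain ⟨p0⟩ := hT.preconnected w0 x
    obtain ⟨u0, hu0, u0', h1, h2, -⟩ := nc_exit T (B : Set W) p0 hx' (Finset.mem_coe.2 hw0)
    rw [connected_iff_exists_forall_reachable]
    refine ⟨⟨u0, hu0⟩, ?_⟩
    rintro ⟨w, hw⟩
    obtain ⟨p⟩ := hT.preconnected w x
    obtain ⟨u, hu', u', h3, h4, h5⟩ := nc_exit T (B : Set W) p hx' hw
    have e : u = u0 := hu u u' u0 u0' (Finset.mem_coe.1 hu') (fun h => h3 (Finset.mem_coe.2 h)) h4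
      (Finset.mem_coe.1 hu0) (fun h => h1 (Finset.mem_coe.2 h)) h2
    subst e
    exact h5.symm

theorem st_NC : ST_NC := by
  classical
  intro W V _ T F a c x hT hcard hB hC hcon
  obtain ⟨f⟩ := hcon
  obtain ⟨hC1, hC2, hC3⟩ := hC
  have hinj : Function.Injective f := f.injective
  have hadj : ∀ u v, T.Adj u v → F.Adj (f u) (f v) := fun u v h => f.toHom.map_adj h
  obtain ⟨i, hi⟩ : ∃ i, i = c (f x) := ⟨_, rfl⟩
  have s1 : (Finset.univ.filter (fun w => i < c (f w))).card ≤ a := by
    apply nc_side T a x hT hB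
    · simp [hi]
    · intro u u' v v' h1 h2 h3 h4 h5 h6
      simp only [Finset.mem_filter, Finset.mem_univ, true_and, not_lt] at h1 h2 h4 h5
      have a1 := hadj _ _ h3
      have a2 := hadj _ _ h6
      have b1 := hC2 _ _ a1
      have b2 := hC2 _ _ a2
      have := hC3 (f u') (f u) (f v') (f v) a1.symm a2.symm (by omega) (by omega) (by omega)
      exact hinj this.2
  have s2 : (Finset.univ.filter (fun w => c (f w) < i)).card ≤ a := by
    apply nc_side T a x hT hB
    · simp [hi]
    · intro u u' v v' h1 h2 h3 h4 h5 h6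
      simp only [Finset.mem_filter, Finset.mem_univ, true_and, not_lt] at h1 h2 h4 h5
      have a1 := hadj _ _ h3
      have a2 := hadj _ _ h6
      have b1 := hC2 _ _ a1
      have b2 := hC2 _ _ a2
      have := hC3 (f u) (f u') (f v) (f v') a1 a2 (by omega) (by omega) (by omega)
      exact hinj this.1
  have s3 : (Finset.univ.filter (fun w => c (f w) = i)).card ≤ a := by
    have h1 := hC1 i ((Finset.univ.filter (fun w => c (f w) = i)).image f) (by
      intro y hy
      rw [Finset.mem_image] at hy
      obtain ⟨w, hw, rfl⟩ := hy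
      simpa using hw)
    rwa [Finset.card_image_of_injective _ hinj] at h1
  have s4 : Fintype.card W ≤ (Finset.univ.filter (fun w => i < c (f w))).card +
      (Finset.univ.filter (fun w => c (f w) < i)).card +
      (Finset.univ.filter (fun w => c (f w) = i)).card := by
    have e : (Finset.univ : Finset W) ⊆ (Finset.univ.filter (fun w => i < c (f w)) ∪
        Finset.univ.filter (fun w => c (f w) < i)) ∪ Finset.univ.filter (fun w => c (f w) = i) := by
      intro w _
      simp only [Finset.mem_union, Finset.mem_filter, Finset.mem_univ, true_and]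
      omega
    have h1 := Finset.card_le_card e
    rw [Finset.card_univ] at h1
    have h2 := Finset.card_union_le (Finset.univ.filter (fun w => i < c (f w)) ∪
        Finset.univ.filter (fun w => c (f w) < i)) (Finset.univ.filter (fun w => c (f w) = i))
    have h3 := Finset.card_union_le (Finset.univ.filter (fun w => i < c (f w)))
        (Finset.univ.filter (fun w => c (f w) < i))
    omega
  omega

end Pool.Agent.Helper18.CT
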