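import Pool.Agent.Helper96.CT.Stmts

/-! # Row SL: a chain of cliques -/

set_option autoImplicit false

namespace Pool.Agent.Helper18.CT

open SimpleGraph Pool.Agent.Helper96.CT

/-- chain of cliques -/
def slG (t d : ℕ) : SimpleGraph (Fin t × Fin d) where
  Adj x y := (x.1 = y.1 ∧ x.2 ≠ y.2) ∨ (y.1.val = x.1.val + 1 ∧ x.2.val = 0 ∧ y.2.val = 1) ∨
    (x.1.val = y.1.val + 1 ∧ y.2.val = 0 ∧ x.2.val = 1)
  symm := ⟨by
    rintro x y (h | h | h)
    · exact Or.inl ⟨h.1.symm, h.2.symm⟩
    · exact Or.inr (Or.inr h)
    · exact Or.inr (Or.inl h)⟩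
  loopless := ⟨by
    rintro x (h | h | h)
    · exact h.2 rfl
    · omega
    · omega⟩

theorem sl_adj {t d : ℕ} (x y : Fin t × Fin d) : (slG t d).Adj x y ↔
    ((x.1 = y.1 ∧ x.2 ≠ y.2) ∨ (y.1.val = x.1.val + 1 ∧ x.2.val = 0 ∧ y.2.val = 1) ∨
    (x.1.val = y.1.val + 1 ∧ y.2.val = 0 ∧ x.2.val = 1)) := Iff.rfl

theorem sl_same {t d : ℕ} (i : Fin t) (a b : Fin d) : (slG t d).Reachable (i, a) (i, b) := by
  by_cases h : a = b
  · rw [h]
  · exact SimpleGraph.Adj.reachable ((sl_adj _ _).2 (Or.inl ⟨rfl, h⟩))

theorem st_SL : ST_SL := by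
  intro t d ht hd
  have z0 : 0 < t := by omega
  have y0 : 0 < d := by omega
  refine ⟨Fin t × Fin d, inferInstance, slG t d, by simp, ?_, ?_, ?_, ?_⟩
  · rw [connected_iff_exists_forall_reachable]
    refine ⟨(⟨0, z0⟩, ⟨0, y0⟩), ?_⟩
    rintro ⟨⟨i, hi⟩, a⟩
    induction i generalizing a with
    | zero => exact sl_same _ _ _
    | succ i ih =>
      have h1 := ih ⟨0, y0⟩ (by omega)
      have h2 : (slG t d).Reachable (⟨i, by omega⟩, ⟨0, y0⟩) (⟨i + 1, hi⟩, ⟨1, by omega⟩) :=
        SimpleGraph.Adj.reachable ((sl_adj _ _).2 (Or.inr (Or.inl ⟨rfl, rfl, rfl⟩)))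
      exact (h1.trans h2).trans (sl_same _ _ _)
  · rw [connected_iff_exists_forall_reachable]
    refine ⟨(⟨0, z0⟩, ⟨1, by omega⟩), ?_⟩
    have key : ∀ (j : Fin t) (b : Fin d), 1 ≤ j.val →
        (slG t d)ᶜ.Adj (⟨0, z0⟩, ⟨1, by omega⟩) (j, b) := by
      intro j b hj
      rw [compl_adj]
      refine ⟨?_, ?_⟩
      · intro h
        have h1 := congrArg (fun x => x.1.val) h
        simp only at h1
        omega
      · rw [sl_adj]
        rintro (h | h | h)
        · have h1 := congrArg Fin.val h.1
          simp only at h1
          omega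
        · have h1 := h.2.1
          simp only at h1
          omega
        · have h1 := h.1
          simp only at h1
          omega
    rintro ⟨⟨i, hi⟩, a⟩
    rcases Nat.eq_zero_or_pos i with h0 | h0
    · subst h0
      have h1 := (key ⟨1, by omega⟩ ⟨0, y0⟩ le_rfl).reachable
      have h2 : (slG t d)ᶜ.Adj (⟨1, by omega⟩, ⟨0, y0⟩) (⟨0, hi⟩, a) := by
        rw [compl_adj]
        refine ⟨?_, ?_⟩
        · intro h
          have h1 := congrArg (fun x => x.1.val) h
          simp only at h1
          omega
        · rw [sl_adj]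
          rintro (h | h | h)
          · have h1 := congrArg Fin.val h.1
            simp only at h1
            omega
          · have h1 := h.1
            simp only at h1
            omega
          · have h1 := h.2.2
            simp only at h1
            omega
      exact h1.trans h2.reachable
    · exact (key ⟨i, hi⟩ a h0).reachable
  · intro I hI
    have h1 : I.card ≤ (Finset.univ : Finset (Fin t)).card := by
      apply Finset.card_le_card_of_injOn (fun x => x.1) (fun _ _ => Finset.mem_coe.2 (Finset.mem_univ _))
      intro x hx y hy hxy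
      by_contra hne
      apply hI x hx y hy hne
      rw [sl_adj]
      refine Or.inl ⟨hxy, ?_⟩
      intro h
      exact hne (Prod.ext hxy h)
    simpa using h1
  · rintro ⟨i, a⟩ I hI
    have h1 : I.card ≤ (Finset.univ : Finset (Fin d)).card := by
      apply Finset.card_le_card_of_injOn (fun x => if x.1 = i then x.2 else a)
        (fun _ _ => Finset.mem_coe.2 (Finset.mem_univ _))
      rintro ⟨j, b⟩ hx ⟨k, c⟩ hy hxy
      have ax := (sl_adj _ _).1 (hI _ hx)
      have ay := (sl_adj _ _).1 (hI _ hy)
      simp only [ne_eq] at ax ay hxy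
      by_cases hj : j = i
      · by_cases hk : k = i
        · rw [if_pos hj, if_pos hk] at hxy
          rw [hj, hk, hxy]
        · exfalso
          rw [if_pos hj, if_neg hk] at hxy
          rcases ax with h | h | h
          · exact h.2 hxy.symm
          · rw [hj] at h; omega
          · rw [hj] at h; omega
      · by_cases hk : k = i
        · exfalso
          rw [if_neg hj, if_pos hk] at hxy
          rcases ay with h | h | h
          · exact h.2 hxy
          · rw [hk] at h; omega
          · rw [hk] at h; omega
        · have e1 : j = k ∧ b = c := by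
            rcases ax with h | h | h
            · exact absurd h.1.symm hj
            · rcases ay with h' | h' | h'
              · exact absurd h'.1.symm hk
              · exact ⟨Fin.ext (by omega), Fin.ext (by omega)⟩
              · omega
            · rcases ay with h' | h' | h'
              · exact absurd h'.1.symm hk
              · omega
              · exact ⟨Fin.ext (by omega), Fin.ext (by omega)⟩
          rw [e1.1, e1.2]
    simpa using h1

end Pool.Agent.Helper18.CT
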